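import Mathlib
import Pool.Agent.H33.Paw

set_option autoImplicit false

namespace Pool.Agent.Results.MP_415bd8_co.NoSurplus

open SimpleGraph Pool.Agent.H33.Paw

theorem result : ∀ k : ℕ, ∃ (U W : Type) (_ : Fintype U) (_ : Fintype W)
    (H : SimpleGraph U) (G : SimpleGraph W),
    (∀ (α : Type) (c : G.lineGraph.Coloring α),
      (((Set.range c).ncard : ℕ) : ℕ∞) ≤ G.lineGraph.chromaticNumber + (k : ℕ∞) →
      ∃ f : Copy H G, Function.Injective fun e : H.edgeSet => c (f.mapEdgeSet e)) ∧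
    ∃ (α : Type) (c : G.lineGraph.Coloring α),
      ∀ f : Copy H G, ¬ Function.Injective fun e : H.edgeSet => c (f.mapEdgeSet e) := by
  intro k
  refine ⟨Fin 4, V (k + 4), inferInstance, inferInstance, paw, G (k + 4), fun α c hc => ?_,
    _, good (k + 4), good_no_rainbow (k + 4)⟩
  by_contra hno
  have h1 := many (k + 4) c fun f hf => hno ⟨f, hf⟩
  have h2 : (((Set.range c).ncard : ℕ) : ℕ∞) ≤ ((2 * (k + 4) + 3 + k : ℕ) : ℕ∞) := by
    refine hc.trans ?_
    rw [Nat.cast_add (2 * (k + 4) + 3) k]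
    exact add_le_add (chi_le (k + 4)) le_rfl
  have h3 : (Set.range c).ncard ≤ 2 * (k + 4) + 3 + k := by exact_mod_cast h2
  omega

end Pool.Agent.Results.MP_415bd8_co.NoSurplus
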